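import Pool.Agent.Work.MP_ebd967_ag.Final

set_option autoImplicit false

/-!
# MP_ebd967_ag: the generators of the ideal of the claw tree have degree exponential in the square root of the
order of the group
-/

namespace Pool.Agent.Results.MP_ebd967_ag.NoPolynomialBound

open MvPolynomial Pool.Agent.Work.MP_ebd967_ag

/-- the sockets: triples of elements of `G` with sum zero -/
abbrev Socket (G : Type) [AddCommGroup G] : Type := {g : G × G × G // g.1 + g.2.1 + g.2.2 = 0}

/-- the toric ideal of the claw tree with three leaves over the field `k`: the kernel of the map which sends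
the variable of the socket `(g₁, g₂, g₃)` to `t (1, g₁) * t (2, g₂) * t (3, g₃)` -/
noncomputable def clawIdeal (k : Type) [Field k] (G : Type) [AddCommGroup G] :
    Ideal (MvPolynomial (Socket G) k) :=
  RingHom.ker (aeval (fun s : Socket G =>
    (X ((0 : Fin 3), s.1.1) * X ((1 : Fin 3), s.1.2.1) * X ((2 : Fin 3), s.1.2.2) :
      MvPolynomial (Fin 3 × G) k)))

/-- the least `d` such that the ideal of the claw tree is generated by its elements of degree at most `d`
(the ideal is homogeneous, so this is the maximal degree in a minimal homogeneous generating set) -/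
noncomputable def phi (k : Type) [Field k] (G : Type) [AddCommGroup G] : ℕ :=
  sInf {d : ℕ | Ideal.span {q : MvPolynomial (Socket G) k | q ∈ clawIdeal k G ∧ q.totalDegree ≤ d} =
    clawIdeal k G}

/-! ### the criterion over a field -/

section Crit

variable {σ τ k : Type} [Field k]

private theorem aeval_mono' (e : σ → τ →₀ ℕ) (f : σ → MvPolynomial τ k)
    (hf : ∀ s, f s = monomial (e s) (1 : k)) (T : σ →₀ ℕ) (c : k) :
    aeval f (monomial T c) = monomial (expo e T) c := by
  rw [aeval_monomial]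
  have h1 : (T.prod fun i k => f i ^ k) = monomial (expo e T) (1 : k) := by
    unfold expo Finsupp.prod Finsupp.sum
    rw [monomial_sum_one]
    apply Finset.prod_congr rfl
    intro s _
    show f s ^ T s = monomial (T s • e s) (1 : k)
    rw [hf, monomial_pow, one_pow]
  rw [h1, algebraMap_eq, C_mul_monomial, mul_one]

open Classical in
private theorem coeff_aeval' (e : σ → τ →₀ ℕ) (f : σ → MvPolynomial τ k)
    (hf : ∀ s, f s = monomial (e s) (1 : k)) (a : MvPolynomial σ k) (E : τ →₀ ℕ) :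
    coeff E (aeval f a) =
      ∑ T ∈ a.support, if expo e T = E then coeff T a else 0 := by
  conv_lhs => rw [a.as_sum]
  rw [map_sum, coeff_sum]
  apply Finset.sum_congr rfl
  intro T _
  rw [aeval_mono' e f hf, coeff_monomial]

/-- If every other monomial of the fibre of `T₀` is coprime to `T₀`, and `T₀` has degree more than
`D`, then the coefficient at `T₀` vanishes on the ideal generated by the elements of degree at
most `D` of the toric ideal. -/
private theorem coeff_eq_zero' (e : σ → τ →₀ ℕ) (f : σ → MvPolynomial τ k)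
    (hf : ∀ s, f s = monomial (e s) (1 : k)) (T₀ : σ →₀ ℕ) (D : ℕ)
    (hD : D < T₀.sum fun _ k => k)
    (hfib : ∀ T : σ →₀ ℕ, expo e T = expo e T₀ → T ≠ T₀ → ∀ s, T₀ s = 0 ∨ T s = 0)
    (p : MvPolynomial σ k)
    (hp : p ∈ Ideal.span {q : MvPolynomial σ k | aeval f q = 0 ∧ q.totalDegree ≤ D}) :
    coeff T₀ p = 0 := by
  classical
  have key : ∀ a : MvPolynomial σ k, aeval f a = 0 → a.totalDegree ≤ D →
      ∀ M T' : σ →₀ ℕ, M + T' = T₀ → coeff T' a = 0 := by
    intro a ha hdeg M T' hMT
    by_contra hne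
    have hsupp : T' ∈ a.support := by rwa [mem_support_iff]
    have hdeg' : (T'.sum fun _ k => k) ≤ D := (le_totalDegree hsupp).trans hdeg
    have hM : M ≠ 0 := by
      rintro rfl
      rw [zero_add] at hMT
      subst hMT
      omega
    obtain ⟨s, hs⟩ : ∃ s, M s ≠ 0 := by
      by_contra hcon
      push Not at hcon
      exact hM (Finsupp.ext hcon)
    have h0 := coeff_aeval' e f hf a (expo e T')
    rw [ha, coeff_zero] at h0
    have h1 : (∑ T ∈ a.support, if expo e T = expo e T' then coeff T a else 0) = coeff T' a := by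
      rw [Finset.sum_eq_single T']
      · simp
      · intro T _ hTT'
        rw [if_neg]
        intro hE
        have hfT : expo e (M + T) = expo e T₀ := by
          rw [expo_add, hE, ← expo_add, hMT]
        have hne' : M + T ≠ T₀ := by
          intro h
          apply hTT'
          rw [← hMT] at h
          exact add_left_cancel h
        rcases hfib (M + T) hfT hne' s with h | h
        · rw [← hMT] at h
          simp at h
          exact hs h.1
        · simp at h
          exact hs h.1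
      · intro h
        exact absurd hsupp h
    rw [h1] at h0
    exact hne h0.symm
  have main : ∀ M T' : σ →₀ ℕ, M + T' = T₀ → coeff T' p = 0 := by
    refine Submodule.span_induction
      (p := fun x _ => ∀ M T' : σ →₀ ℕ, M + T' = T₀ → coeff T' x = 0) ?_ ?_ ?_ ?_ hp
    · intro x hx
      exact key x hx.1 hx.2
    · simp
    · intro x y _ _ hx hy M T' h
      rw [coeff_add, hx M T' h, hy M T' h, add_zero]
    · intro a x _ hx M T' h
      rw [smul_eq_mul, coeff_mul]
      apply Finset.sum_eq_zero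
      intro AB hAB
      rw [Finset.HasAntidiagonal.mem_antidiagonal] at hAB
      rw [hx (M + AB.1) AB.2 (by rw [add_assoc, hAB, h]), mul_zero]
  exact main 0 T₀ (zero_add _)

end Crit

/-! ### the combinatorial statement with its numbers -/

private theorem main_q (m : ℕ) (hm : 3 ≤ m) : ∃ (G : Type) (_ : AddCommGroup G) (_ : Fintype G)
    (T₀ T₁ : Skt G →₀ ℕ), Fintype.card G = 2 ^ (m + 2) * (2 ^ (m + 1) - 3) ∧
      expo ex T₁ = expo ex T₀ ∧ T₁ ≠ T₀ ∧
      (2 ^ 2 ^ (m - 1) ≤ T₀.sum fun _ k => k) ∧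
      (∀ T : Skt G →₀ ℕ, expo ex T = expo ex T₀ → T ≠ T₀ → ∀ s, T₀ s = 0 ∨ T s = 0) := by
  have h8 : 8 ≤ 2 ^ m := by
    calc 8 = 2 ^ 3 := by norm_num
      _ ≤ 2 ^ m := Nat.pow_le_pow_right (by norm_num) hm
  obtain ⟨n, hn⟩ : ∃ n, n + 4 = 2 ^ m := ⟨2 ^ m - 4, by omega⟩
  obtain ⟨G₀, _, _, _, v, hcard, hv⟩ := exists_labels m hm n hn
  have hIx : Fintype.card (Ix n) = 2 * n + 5 := by
    simp [Ix]; ring
  obtain ⟨th⟩ : Nonempty (Ix n ≃ ZMod (2 * n + 5)) := by
    apply Fintype.card_eq.mp
    rw [hIx, ZMod.card]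
  have hs := ps_eq_qr v n hv.two
  have hpq := p_ne_q hv
  have hpr := p_ne_r hv
  have hy : 2 ^ m = 2 * 2 ^ (m - 1) := by
    rw [← pow_succ']
    congr 1
    omega
  have hy4 : 4 ≤ 2 ^ (m - 1) := by omega
  refine ⟨G₀ × ZMod (2 * n + 5), inferInstance, inferInstance,
    TT th (pp v n) (qq v n) (rr v n) (xx n) false, TT th (pp v n) (qq v n) (rr v n) (xx n) true,
    ?_, ?_, ?_, ?_, ?_⟩
  · rw [Fintype.card_prod, hcard, ZMod.card]
    have e1 : 2 * n + 5 = 2 ^ (m + 1) - 3 := by
      rw [pow_succ, ← hn]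
      omega
    rw [e1, pow_add 2 m 2]
    norm_num
  · exact expo_TT_eq th _ _ _ (ss v n) _ hs (balance v n)
  · intro h
    have h0 : TT th (pp v n) (qq v n) (rr v n) (xx n) false
        (EE th (pp v n) (qq v n) (rr v n) (Sum.inl 0) false true) = 0 := by
      rw [TT_apply]
      apply Finset.sum_eq_zero
      intro i _
      rw [if_neg, if_neg, add_zero]
      · intro he
        exact absurd (EE_inj th _ _ _ th.injective hpq hpr _ _ _ _ _ _ he).2.1 (by decide)
      · intro he
        exact absurd (EE_inj th _ _ _ th.injective hpq hpr _ _ _ _ _ _ he).2.2 (by decide)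
    rw [← h, TT_apply, Finset.sum_eq_zero_iff] at h0
    have h1 := h0 (Sum.inl 0) (Finset.mem_univ _)
    rw [if_pos rfl] at h1
    have h2 : xx n (Sum.inl 0) = 2 * Nat.fib (0 + 1) := rfl
    rw [h2] at h1
    simp at h1
  · rw [sum_TT_degree]
    have h4 := Finset.single_le_sum (f := fun i => xx n i + xx n i)
      (fun i _ => Nat.zero_le _) (Finset.mem_univ (Sum.inl (Fin.last n) : Ix n))
    refine le_trans ?_ h4
    show 2 ^ (2 ^ (m - 1)) ≤ 2 * Nat.fib (n + 1) + 2 * Nat.fib (n + 1)
    have h5 := two_pow_le_fib (2 ^ (m - 1) - 2)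
    have h6 : 2 * (2 ^ (m - 1) - 2) + 1 = n + 1 := by omega
    rw [h6] at h5
    have h7 : 2 ^ (2 ^ (m - 1)) = 4 * 2 ^ (2 ^ (m - 1) - 2) := by
      have : 2 ^ (m - 1) = (2 ^ (m - 1) - 2) + 2 := by omega
      conv_lhs => rw [this]
      rw [pow_add]; ring
    omega
  · exact fibre th _ _ _ (ss v n) _ th.injective hpq hpr hs (rigid (by omega) hv)

/-- every generating set has an element of large degree -/
private theorem gen_q (k : Type) [Field k] (m : ℕ) (hm : 3 ≤ m) :
    ∃ (G : Type) (_ : AddCommGroup G) (_ : Fintype G),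
      Fintype.card G = 2 ^ (m + 2) * (2 ^ (m + 1) - 3) ∧
      ∀ S : Set (MvPolynomial (Socket G) k), Ideal.span S = clawIdeal k G →
        ∃ q ∈ S, 2 ^ 2 ^ (m - 1) ≤ q.totalDegree := by
  classical
  obtain ⟨G, _, _, T₀, T₁, hcard, hE, hne, hdeg, hfib⟩ := main_q m hm
  refine ⟨G, inferInstance, inferInstance, hcard, fun S hS => ?_⟩
  by_contra hcon
  push Not at hcon
  have hf : ∀ s : Skt G,
      (X ((0 : Fin 3), s.1.1) * X ((1 : Fin 3), s.1.2.1) * X ((2 : Fin 3), s.1.2.2) :
        MvPolynomial (Fin 3 × G) k) = monomial (ex s) (1 : k) := by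
    intro s
    unfold ex
    rw [X, X, X, monomial_mul, monomial_mul, one_mul, one_mul]
  have hpos : 0 < 2 ^ 2 ^ (m - 1) := by positivity
  have hmem : (monomial T₀ (1 : k) - monomial T₁ (1 : k) : MvPolynomial (Socket G) k) ∈ clawIdeal k G := by
    rw [clawIdeal, RingHom.mem_ker, map_sub]
    erw [aeval_mono' _ _ hf, aeval_mono' _ _ hf]
    rw [hE, sub_self]
  have hle : Ideal.span S ≤ Ideal.span {q : MvPolynomial (Socket G) k |
      aeval (fun s : Skt G => (X ((0 : Fin 3), s.1.1) * X ((1 : Fin 3), s.1.2.1) *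
        X ((2 : Fin 3), s.1.2.2) : MvPolynomial (Fin 3 × G) k)) q = 0 ∧
      q.totalDegree ≤ 2 ^ 2 ^ (m - 1) - 1} := by
    refine Ideal.span_mono fun q hq => ⟨?_, ?_⟩
    · have h1 : q ∈ clawIdeal k G := by
        rw [← hS]
        exact Ideal.subset_span hq
      exact h1
    · have := hcon q hq
      omega
  rw [← hS] at hmem
  have h2 := coeff_eq_zero' ex _ hf T₀ (2 ^ 2 ^ (m - 1) - 1) (by omega) hfib _ (hle hmem)
  rw [coeff_sub, coeff_monomial, coeff_monomial, if_pos rfl, if_neg hne, sub_zero] at h2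
  exact one_ne_zero h2

private theorem phi_mem (k : Type) [Field k] (G : Type) [AddCommGroup G] [Finite G] :
    Ideal.span {q : MvPolynomial (Socket G) k | q ∈ clawIdeal k G ∧ q.totalDegree ≤ phi k G} =
      clawIdeal k G := by
  classical
  refine Nat.sInf_mem (s := {d : ℕ | Ideal.span {q : MvPolynomial (Socket G) k |
    q ∈ clawIdeal k G ∧ q.totalDegree ≤ d} = clawIdeal k G}) ?_
  obtain ⟨S, hS⟩ := (isNoetherianRing_iff_ideal_fg (MvPolynomial (Socket G) k)).1 inferInstance
    (clawIdeal k G)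
  refine ⟨S.sup fun q => q.totalDegree, le_antisymm (Ideal.span_le.2 fun q hq => hq.1) ?_⟩
  conv_lhs => rw [← hS]
  refine Ideal.span_mono fun q hq => ⟨?_, Finset.le_sup (f := fun q => q.totalDegree) hq⟩
  rw [← hS]
  exact Ideal.subset_span hq

/-- Over every field `k`: (1) for every `m ≥ 3` there is a finite abelian group `G` of order
`2 ^ (m + 2) * (2 ^ (m + 1) - 3) < 8 * 4 ^ m` such that every generating set of the ideal of the claw tree
has an element of degree at least `2 ^ 2 ^ (m - 1)`; (2) there is no polynomial bound for `phi`. -/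
theorem result (k : Type) [Field k] :
    (∀ m : ℕ, 3 ≤ m → ∃ (G : Type) (_ : AddCommGroup G) (_ : Fintype G),
      Fintype.card G = 2 ^ (m + 2) * (2 ^ (m + 1) - 3) ∧
      ∀ S : Set (MvPolynomial (Socket G) k), Ideal.span S = clawIdeal k G →
        ∃ q ∈ S, 2 ^ 2 ^ (m - 1) ≤ q.totalDegree) ∧
    ∀ Q : Polynomial ℝ, ∃ (G : Type) (_ : AddCommGroup G) (_ : Fintype G),
      Q.eval (Fintype.card G : ℝ) < (phi k G : ℝ) := by
  refine ⟨gen_q k, fun Q => ?_⟩
  set P : Polynomial ℕ := ∑ i ∈ Finset.range (Q.natDegree + 1),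
    Polynomial.C ⌈|Q.coeff i|⌉₊ * Polynomial.X ^ i with hP
  have hQP : ∀ x : ℕ, Q.eval (x : ℝ) ≤ ((P.eval x : ℕ) : ℝ) := by
    intro x
    rw [hP, Polynomial.eval_finsetSum, Polynomial.eval_eq_sum_range, Nat.cast_sum]
    refine Finset.sum_le_sum fun i _ => ?_
    rw [Polynomial.eval_mul, Polynomial.eval_C, Polynomial.eval_pow, Polynomial.eval_X, Nat.cast_mul,
      Nat.cast_pow]
    refine mul_le_mul_of_nonneg_right ?_ (by positivity)
    exact (le_abs_self _).trans (Nat.le_ceil _)
  obtain ⟨m, hm, hgr⟩ := exists_growth P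
  obtain ⟨G, _, _, hcard, hgen⟩ := gen_q k m hm
  refine ⟨G, inferInstance, inferInstance, ?_⟩
  obtain ⟨q, hq, hdeg⟩ := hgen _ (phi_mem k G)
  have h1 : 2 ^ 2 ^ (m - 1) ≤ phi k G := hdeg.trans hq.2
  have h2 : Fintype.card G ≤ 32 * (2 ^ (m - 1)) ^ 2 := by
    rw [hcard]
    have e1 : 2 ^ (m + 2) = 8 * 2 ^ (m - 1) := by
      have : m + 2 = (m - 1) + 3 := by omega
      rw [this, pow_add]
      ring
    have e2 : 2 ^ (m + 1) = 4 * 2 ^ (m - 1) := by
      have : m + 1 = (m - 1) + 2 := by omega
      rw [this, pow_add]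
      ring
    rw [e1, e2]
    calc 8 * 2 ^ (m - 1) * (4 * 2 ^ (m - 1) - 3) ≤ 8 * 2 ^ (m - 1) * (4 * 2 ^ (m - 1)) :=
        Nat.mul_le_mul_left _ (Nat.sub_le _ _)
      _ = 32 * (2 ^ (m - 1)) ^ 2 := by ring
  have h3 : P.eval (Fintype.card G) < phi k G := ((eval_mono' P h2).trans_lt hgr).trans_le h1
  exact (hQP _).trans_lt (by exact_mod_cast h3)

end Pool.Agent.Results.MP_ebd967_ag.NoPolynomialBound
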